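import Pool.Agent.H718.GE.Defs

/-!
# The exact law of the 2-isogeny Selmer rank in families of twists of an arbitrary curve

`E : y² = x³ + a x² + b x`, `b (a² - 4 b) ≠ 0`, is an arbitrary elliptic curve over `ℚ` with a rational
point of order two; `E_D : y² = x³ + a D x² + b D² x` is its quadratic twist by `D`. The numbers `f₁`,
`f₂` and `s = f₁ + f₂ - 2` (`srank`) are those of the problem; `r` (`rank`) is the rank.

A prime `p` is split for `E` if `p ≡ 1` modulo `8` and modulo the odd prime divisors of
`b (a² - 4 b)`. Let `q` be a split prime such that `x⁴ + a x² + b` has no root modulo `q`. For the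
twists by `D = q p₁ ⋯ p_n`, the `p_i` in given residue classes of split primes, an odd number of them
consisting of nonresidues modulo `q`, the law of `s(E_D)` is determined exactly, with a power saving:
for every `k` the proportion of the `D` with `s(E_D) = s(E) + 2 k` is the probability `law (n - 1) k`
that a random symmetric `(n - 1) × (n - 1)` matrix over `𝔽₂` has corank `k`. If `s(E) = 0`, then
moreover `r(E_D) = 0 = s(E_D)` for all the `D` with `k = 0`, so that `r ≡ s` modulo `2` (in fact
`r = s`) holds for the proportion `law (n - 1) 0 = ∏_{i < n / 2} (1 - 2^(-(2 i + 1))) > 0.419`.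

The law of the symbols is the one of `Pool/Graph/R_seed8/R338/EQ`; the local solubility at the various
primes, the two isogenies and the transformation of the bordered matrix are the pieces of the
(unfinished) project `Pool/Graph/R_pool_sql_team_seeded_b0a926ef/R413/TI` of helper413; the count of
the symmetric forms by corank is adapted from `Pool/Graph/R_seed8/Y31/XL/REC`.
-/

set_option autoImplicit false

open scoped Classical

namespace Pool.Agent.Results.MP_e2b281_nt.ExactSelmerLaw

open Finset Function
open Pool.Agent.H718.GE.D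

/-- **Theorem.** -/
theorem result (a b : ℤ) (hb : b ≠ 0) (hd : a ^ 2 - 4 * b ≠ 0) (q : ℕ) (hq : Split a b q)
    (hroot : ¬ HasRoot a b q) (n : ℕ) (hn : 0 < n) (M : ℕ) (c : Fin n → ℕ)
    (hadm : Admissible a b q M c) (k : ℕ) :
    Proportion M c (fun p => srank (a * prod q p) (b * prod q p ^ 2) = srank a b + 2 * k ∧
      (SelmerZero a b → k = 0 → rank (a * prod q p) (b * prod q p ^ 2) = 0)) (law (n - 1) k) ∧
    0.419 < law (n - 1) 0 := by
  refine ⟨?_, law_ge _⟩
  obtain ⟨hM, hM8, hMB, hMq, hc, hodd⟩ := hadm
  have hf : Pool.Agent.H718.GE.fb a b q = 1 := if_neg hroot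
  have hw := sum_res c hodd
  have hspl : ∀ (X : Fin n → ℕ) (p : Fin n → ℕ), p ∈ tuples M c X →
      (∀ s ∈ insert q (univ.image p), Split a b s) ∧ prod q p = prd (insert q (univ.image p)) := by
    intro X p hp
    unfold tuples at hp
    rw [mem_filter, Fintype.mem_piFinset] at hp
    obtain ⟨hp, hinj⟩ := hp
    have hs : ∀ i, Split a b (p i) := fun i =>
      Pool.Agent.H718.GE.Cls.spl (B := b * (a ^ 2 - 4 * b)) hM8 hMB (hc i) (hp i)
    have hpq : ∀ i, p i ≠ q := by
      intro i hi
      have h1 := (Pool.Agent.R338.EQ.mem_clsM.1 (hp i)).2.2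
      have h2 : p i % q = c i % q := by
        have h3 : p i % M % q = c i % M % q := by rw [h1]
        rwa [Nat.mod_mod_of_dvd _ hMq, Nat.mod_mod_of_dvd _ hMq] at h3
      rw [hi, Nat.mod_self] at h2
      have h4 : q ∣ Nat.gcd (c i) M := Nat.dvd_gcd (Nat.dvd_of_mod_eq_zero h2.symm) hMq
      rw [(hc i).1] at h4
      exact hq.1.one_lt.ne' (Nat.dvd_one.1 h4)
    constructor
    · intro s hs'
      rcases mem_insert.1 hs' with rfl | hs'
      · exact hq
      · obtain ⟨i, -, rfl⟩ := mem_image.1 hs'
        exact hs i
    · unfold prod prd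
      rw [prod_insert, prod_image fun x _ y _ h => hinj h]
      · push_cast
        rfl
      · intro h
        obtain ⟨i, -, hi⟩ := mem_image.1 h
        exact hpq i hi
  obtain ⟨A, hA, h⟩ := Pool.Agent.H718.GE.ker_law (a := a) (b := b) hq hf hn hM hM8 hMB hMq c hc
    hw k
  refine ⟨A, hA, fun X z hr => ?_⟩
  have key := h X z hr.1 hr.2.1 hr.2.2
  have e : (Fintype.piFinset fun i => Pool.Agent.R338.EQ.clsM M (c i) (X i)).filter (fun p =>
      Injective p ∧ (Pool.Agent.H718.GE.kerS a b (insert q (univ.image p))).card = 2 ^ k) =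
      (tuples M c X).filter fun p =>
        srank (a * prod q p) (b * prod q p ^ 2) = srank a b + 2 * k ∧
        (SelmerZero a b → k = 0 → rank (a * prod q p) (b * prod q p ^ 2) = 0) := by
    unfold tuples
    rw [filter_filter]
    refine filter_congr fun p hp => and_congr_right fun hinj => ?_
    obtain ⟨h1, h2⟩ := hspl X p (mem_filter.2 ⟨hp, hinj⟩)
    rw [h2, srank_twist hb hd h1, Pool.Agent.H718.GE.card_kerS, finrank_ker]
    constructor
    · intro h4
      have h5 := Nat.pow_right_injective (le_refl 2) h4
      refine ⟨by rw [h5], fun h6 hk => ?_⟩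
      rw [hk] at h5
      obtain ⟨h7, h8⟩ := ncards hb hd h1
      rw [h5, pow_zero, mul_one] at h7 h8
      have hne := prd_pos h1
      refine (rank_zero (mul_ne_zero hb (pow_ne_zero 2 hne)) ?_ ?_).1
      · have e1 : (a * prd (insert q (univ.image p))) ^ 2 -
            4 * (b * prd (insert q (univ.image p)) ^ 2) =
            (a ^ 2 - 4 * b) * prd (insert q (univ.image p)) ^ 2 := by ring
        rw [e1]
        exact mul_ne_zero hd (pow_ne_zero 2 hne)
      · rw [h7, h8]
        exact h6
    · rintro ⟨h4, -⟩
      have h5 : corank a b (insert q (univ.image p)) = k := by omega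
      rw [h5]
  rw [e] at key
  have key2 : |(((tuples M c X).filter fun p =>
      srank (a * prod q p) (b * prod q p ^ 2) = srank a b + 2 * k ∧
      (SelmerZero a b → k = 0 → rank (a * prod q p) (b * prod q p ^ 2) = 0)).card : ℝ) -
      law (n - 1) k * ((tuples M c X).card : ℝ)| ≤
      A * (z : ℝ) ^ (-(1 / 24 : ℝ)) * ((tuples M c X).card : ℝ) := key
  convert key2

end Pool.Agent.Results.MP_e2b281_nt.ExactSelmerLaw
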