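import Pool.Agent.H718.GE.Defs

/-!
# The 2-isogeny Selmer groups of the twists of an arbitrary curve by products of split primes

`E : y² = x³ + a x² + b x`, `b (a² - 4 b) ≠ 0`, is an arbitrary elliptic curve over `ℚ` with a rational
point of order two; `E_D : y² = x³ + a D x² + b D² x` is its quadratic twist by `D`. The numbers `f₁`,
`f₂` and `s = f₁ + f₂ - 2` (`srank`) are those of the problem; `r` (`rank`) is the rank.

Let `D` be a product of distinct primes which are `1` modulo `8` and modulo the odd prime divisors of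
`b (a² - 4 b)`. Then both `f₁` and `f₂` grow by the corank over `𝔽₂` of one explicit matrix of residue
symbols; so `s(E_D) = s(E) + 2 corank`. In particular the parity of `s` is the same for all these
twists: for them the question becomes whether `r(E_D)` has the parity of `s(E)`, and
`2 ^ (r(E_D) + 2) ≤ 2 ^ (f₁ + f₂ + 2 corank)`.

The local solubility at the various primes and the two isogenies are pieces of the (unfinished) project
`Pool/Graph/R_pool_sql_team_seeded_b0a926ef/R413/TI` of helper413.
-/

set_option autoImplicit false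

open scoped Classical

namespace Pool.Agent.Results.MP_e2b281_nt.TwistFormula

open Finset Function
open Pool.Agent.H718.GE.D

/-- **Theorem.** -/
theorem result (a b : ℤ) (hb : b ≠ 0) (hd : a ^ 2 - 4 * b ≠ 0) (S : Finset ℕ)
    (hS : ∀ p ∈ S, Split a b p) :
    f₁ (a * prd S) (b * prd S ^ 2) = f₁ a b + corank a b S ∧
    f₂ (a * prd S) (b * prd S ^ 2) = f₂ a b + corank a b S ∧
    srank (a * prd S) (b * prd S ^ 2) = srank a b + 2 * corank a b S ∧
    4 * 2 ^ rank (a * prd S) (b * prd S ^ 2) ≤
      (classes a b).ncard * (classes' a b).ncard * 4 ^ corank a b S := by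
  refine ⟨(growth hb hd hS).1, (growth hb hd hS).2, srank_twist hb hd hS, ?_⟩
  have hne := prd_pos hS
  have e1 : (a * prd S) ^ 2 - 4 * (b * prd S ^ 2) = (a ^ 2 - 4 * b) * prd S ^ 2 := by ring
  have h1 : 4 * 2 ^ rank (a * prd S) (b * prd S ^ 2) ≤
      (classes (a * prd S) (b * prd S ^ 2)).ncard *
        (classes' (a * prd S) (b * prd S ^ 2)).ncard :=
    Pool.Agent.H718.GE.rank_le (mul_ne_zero hb (pow_ne_zero 2 hne))
      (by rw [e1]; exact mul_ne_zero hd (pow_ne_zero 2 hne))
  obtain ⟨h7, h8⟩ := ncards hb hd hS
  rw [h7, h8] at h1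
  refine h1.trans (le_of_eq ?_)
  rw [show (4 : ℕ) = 2 * 2 from rfl, mul_pow]
  ring

end Pool.Agent.Results.MP_e2b281_nt.TwistFormula
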