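import Pool.Agent.H743.SQ.C
import Pool.Agent.H743.X17.ECX
import Pool.Agent.H468.WN.Cur
import Pool.Agent.H468.WJ.Lim

/-!
# Rank and 2-isogeny Selmer rank of the quadratic twists of the curves of conductor `17`

For a squarefree integer `m`, positive or negative, let `E_m : y² = x (x + m) (x - 16 m)`, the twist by `m`
of the curve 17a2, which has all its points of order two rational, and let `I_{0,m}`, `I_{1,m}`, `I_{2,m}` be
its quotients by these three points: `I_{0,m}` is the twist of `X_0(17)`; the four curves form the isogeny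
class of the twist, they have no complex multiplication.  `E_m` has three models `y² = x³ + a x² + b x` up to
the substitutions `(a, b) → (a λ², b λ⁴)`, one for each point of order two, and each of the three other curves
has one: `EquE j m a b` and `EquI j m a b` say that `(a, b)`, `a, b ∈ ℤ`, is such an equation (`λ ∈ ℚ^×` is
arbitrary, so that these are ALL the integral equations of this form of the four curves).

The theorem, with no hypothesis on the rank or on `Ш`: for every squarefree `m` except `1, -1, 17, -17` with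
`Good m` (a symmetric matrix over `𝔽₂`, made of the Rédei matrix of `ℚ(√m)`, of the signs of the prime
discriminants and of the symbols `(17/p)`, is nonsingular) and for EVERY such equation `(a, b)`
* `E(ℚ)` is finite, `r = 0`;
* of the two numbers `f₁`, `f₂` one is `0` (the only everywhere locally solvable quartic is that of
  `b₁ = 1`) and the other one is `ex j m`: up to `2` the number of the prime factors `≡ 3 mod 4` of `m`
  (`j = 0`), or of those with `(17/p) = -1` (`j = 1, 2`); the orders of the groups are exact;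
* `ex j m ≥ 2` is even; hence `s = f₁ + f₂ - 2 = ex j m - 2` and `r ≡ s mod 2` (`Q1`).

The laws.  `Event m`: `Good m` and all these conclusions.  Let `P` be the set of all squarefree `m`, with
`T = A = {1}` and `κ = c / 2 = 0.2097...`; or a class of `m` given by finitely many places and by the root
numbers of the twists by `t m`, `t ∈ T`, with a finite set `T` of squarefree integers, a subset `A` of the set
`plus` of the `t` with root number `1`, `κ = c ^ #A (1 - c) ^ #(plus \ A)`, `c = 0.4194...`.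
* `Event (t m)` for the `t ∈ A` and not for the `t ∈ T \ A` has exactly the share `κ` in `P`, and it is
  independent in total variation of the numbers of the odd prime factors of `m` in the classes modulo `q`;
* given this pattern the 2-Selmer ranks `s` of the three kinds `j = 0, 1, 2` of equations of the curves of the
  twists by `t m`, `t ∈ A`, have a joint NORMAL limit law, with the means `(1/2) log log X` and the covariances
  `M_{jj'} log log X`, `M = [[1/2, 1/4, 1/4], [1/4, 1/2, 1/2], [1/4, 1/2, 1/2]]`: hence the parity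
  statement holds, with `r = 0`, for a set of twists of density `c / 2` on which `s` tends to infinity.

Proof.  Points of the quartics of the second kind give points on the 2-coverings of `E_m` (`SQ/A.lean`), so that
the complete 2-descent for all the twists (`H743/X17`) leaves the trivial class only, with a separate study
of the classes of the points of order two; the quartics of the first kind are counted with the explicit local
conditions at all the places (`X17/UL0..2, UCNT0..2`); divisibility of `b` by the classes for every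
integral equation (`SQ/C.lean`); the parity of the exponents is quadratic reciprocity (`SQ/B.lean`); joint
law: `H743/JL`; total variation and normal laws: `H468/WN, WJ` (helper468, who has the same laws for the
orders of the Tate-Shafarevich groups, MP_4a9ea6_nt.ShaOrdersX17, from which the last part is adapted).
-/

set_option autoImplicit false

open Filter Topology ProbabilityTheory

namespace Pool.Agent.Results.MP_e2b281_nt.TwistsOf17

/-! ### the descent by 2-isogeny -/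

/-- `y² = x³ + a x² + b x` over `ℚ` -/
abbrev E (a b : ℤ) : WeierstrassCurve ℚ :=
  { a₁ := 0, a₂ := (a : ℚ), a₃ := 0, a₄ := (b : ℚ), a₆ := 0 }

/-- the rank of `E(ℚ)` -/
noncomputable def r (a b : ℤ) : ℕ := Module.finrank ℤ (E a b).toAffine.Point

/-- the squarefree divisors `b₁` of `b` such that `N² = b₁ M⁴ + a M² e² + (b / b₁) e⁴` is everywhere
locally solvable (the text of the frozen statement) -/
def Sel (a b : ℤ) : Set ℤ :=
  {b₁ : ℤ | Squarefree b₁ ∧ b₁ ∣ b ∧
    (∃ N M e : ℝ, (M ≠ 0 ∨ e ≠ 0) ∧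
      N ^ 2 = (b₁ : ℝ) * M ^ 4 + (a : ℝ) * M ^ 2 * e ^ 2 + ((b / b₁ : ℤ) : ℝ) * e ^ 4) ∧
    ∀ (p : ℕ) [Fact p.Prime], ∃ N M e : Padic p, (M ≠ 0 ∨ e ≠ 0) ∧
      N ^ 2 = (b₁ : Padic p) * M ^ 4 + (a : Padic p) * M ^ 2 * e ^ 2
        + ((b / b₁ : ℤ) : Padic p) * e ^ 4}

/-- the same set for the isogenous curve `(a', b') = (-2 a, a² - 4 b)` -/
def Sel' (a b : ℤ) : Set ℤ := Sel (-2 * a) (a ^ 2 - 4 * b)

/-- `f₁` -/
noncomputable def f₁ (a b : ℤ) : ℕ := Nat.log 2 (Sel a b).ncard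

/-- `f₂` -/
noncomputable def f₂ (a b : ℤ) : ℕ := Nat.log 2 (Sel' a b).ncard

/-- the 2-Selmer rank `s = f₁ + f₂ - 2` -/
noncomputable def s (a b : ℤ) : ℤ := f₁ a b + f₂ a b - 2

/-- the statement of the problem for the curve `(a, b)`: `r ≡ s mod 2` -/
def Q1 (a b : ℤ) : Prop := Even (r a b + f₁ a b + f₂ a b)

/-! ### the equations -/

/-- see `EquE` -/
def al (j : Fin 3) : ℤ := match j with | 0 => -15 | 1 => -18 | 2 => 33

/-- see `EquE` -/
def be (j : Fin 3) : ℤ := match j with | 0 => -16 | 1 => 17 | 2 => 272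

/-- `y² = x³ + a x² + b x` is isomorphic over `ℚ`, by `(x, y) → (λ² x, λ³ y)`, to
`y² = x³ + al j m x² + be j m² x`, i.e. to `E_m : y² = x (x + m) (x - 16 m)` with the point `(0, 0)`
(`j = 0`), `(-m, 0)` (`j = 1`), `(16 m, 0)` (`j = 2`) of `E_m` moved to `(0, 0)` -/
def EquE (j : Fin 3) (m a b : ℤ) : Prop :=
  ∃ l : ℚ, l ≠ 0 ∧ (a : ℚ) = al j * m * l ^ 2 ∧ (b : ℚ) = be j * m ^ 2 * l ^ 4

/-- the same for the quotients of `E_m` by the three points of order two:
`y² = x³ - 2 al j m x² + (al j² - 4 be j) m² x` -/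
def EquI (j : Fin 3) (m a b : ℤ) : Prop :=
  ∃ l : ℚ, l ≠ 0 ∧ (a : ℚ) = -2 * al j * m * l ^ 2 ∧
    (b : ℚ) = ((al j : ℚ) ^ 2 - 4 * be j) * m ^ 2 * l ^ 4

/-- the excluded twists -/
def Exc (m : ℤ) : Prop := m = 1 ∨ m = -1 ∨ m = 17 ∨ m = -17

/-- the root number of the four curves is `1` -/
def Root (m : ℤ) : Prop := (0 < m ∧ jacobiSym m 17 = 1) ∨ (m < 0 ∧ jacobiSym m 17 ≠ 1)

/-! ### the criterion and the exponents -/

/-- the absolute value of the discriminant of `ℚ(√m)`, `m` squarefree -/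
def disc (m : ℤ) : ℕ := if m % 4 = 1 then m.natAbs else 4 * m.natAbs

/-- the primes ramified in `ℚ(√m)` -/
def R (m : ℤ) : Finset ℕ := (disc m).primeFactors

/-- the prime discriminant `q*` of `ℚ(√m)`, `q ∈ R m` -/
def star (m : ℤ) (q : ℕ) : ℤ :=
  if q = 2 then (if m % 4 = 3 then -4 else if m % 8 = 2 then 8 else -8)
  else if q % 4 = 1 then q else -q

/-- the Kronecker symbol `(q* / p)`, `p ≠ q`, written additively -/
def sym (m : ℤ) (q p : ℕ) : ZMod 2 :=
  if p = 2 then (if star m q % 8 = 1 ∨ star m q % 8 = 7 then 0 else 1)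
  else (if jacobiSym (star m q) p = 1 then 0 else 1)

/-- the Rédei matrix: `(q* / p)` outside of the diagonal, and the sums of the rows are zero -/
def L (m : ℤ) (p q : ℕ) : ZMod 2 := if p = q then ∑ r ∈ (R m).erase p, sym m r p else sym m q p

/-- the sign of `q*`, written additively -/
def sg (m : ℤ) (q : ℕ) : ZMod 2 := if star m q < 0 then 1 else 0

/-- the Kronecker symbol `(17 / p)`, written additively -/
def nu (p : ℕ) : ZMod 2 := if p = 2 then 0 else if jacobiSym 17 p = 1 then 0 else 1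

/-- **The criterion**: the homogeneous system over `𝔽₂` with the symmetric matrix
`[[diag (17/p), L], [Lᵀ, diag (sign of q*)]]`, without the row and the column of the first block which
belong to `17`, has only the trivial solution. -/
def Good (m : ℤ) : Prop := ∀ x y : ℕ → ZMod 2, x 17 = 0 →
  (∀ p ∈ (R m).erase 17, nu p * x p + ∑ q ∈ R m, L m p q * y q = 0) →
  (∀ q ∈ R m, ∑ p ∈ R m, L m p q * x p + sg m q * y q = 0) →
  ∀ p ∈ R m, x p = 0 ∧ y p = 0

/-- the number of the negative prime discriminants -/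
def neg (m : ℤ) : ℕ := ((R m).filter fun q => sg m q = 1).card

/-- the number of the ramified primes `p ≠ 17` with `(17/p) = -1` -/
def non (m : ℤ) : ℕ := (((R m).erase 17).filter fun p => nu p = 1).card

/-- `((m/17) / 17)`, written additively -/
def r17 (m : ℤ) : ℕ := if jacobiSym (m / 17) 17 = 1 then 0 else 1

/-- the exponents -/
def ex (j : Fin 3) (m : ℤ) : ℕ := match j with
  | 0 => if 0 < m then neg m else neg m + 1
  | 1 => if 0 < m then non m else if (17 : ℤ) ∣ m then non m + r17 m else non m + 1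
  | 2 => if 0 < m then non m + 2 else if (17 : ℤ) ∣ m then non m + r17 m else non m + 1

/-! ### the densities -/

open Classical in
/-- the number of the squarefree integers `m`, `|m| ≤ X`, with the property `P` -/
noncomputable def num (P : ℤ → Prop) (X : ℕ) : ℕ :=
  ((Finset.Icc (-(X : ℤ)) X).filter fun m => Squarefree m ∧ P m).card

/-- `m` and `d₀` have the same class in `ℚ_p^×` modulo squares for `p ∈ S`, and the same sign if `inf` -/
def SameClass (inf : Prop) (S : Finset ℕ) (d₀ m : ℤ) : Prop :=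
  (inf → 0 < m * d₀) ∧ ∀ (p : ℕ) [Fact p.Prime], p ∈ S → IsSquare ((m * d₀ : ℤ) : ℚ_[p])

/-- `Good m`, and for all the equations of the four curves: `E(ℚ)` is finite, `r = 0`, `r ≡ s mod 2`, and `s`
is the explicit even number `ex j m - 2` -/
def Event (m : ℤ) : Prop := Good m ∧ ∀ (j : Fin 3) (a b : ℤ), EquE j m a b ∨ EquI j m a b →
  b ≠ 0 ∧ a ^ 2 - 4 * b ≠ 0 ∧ Finite (E a b).toAffine.Point ∧ r a b = 0 ∧ Q1 a b ∧
    s a b = ex j m - 2

/-- the constant `(1 - 1/2) (1 - 1/8) (1 - 1/32) ⋯ = 0.4194...` -/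
noncomputable def c : ℝ := ∏' i : ℕ, (1 - (1 / 2 : ℝ) ^ (2 * i + 1))

/-- the squarefree part of the product of the squarefree integers `t` and `m` -/
def tw (t m : ℤ) : ℤ := t * m / (Int.gcd t m : ℤ) ^ 2

/-- the pattern: `Event (t m)` for the `t ∈ A`, and not for the `t ∈ T \ A` -/
def Pat (T A : Finset ℤ) (m : ℤ) : Prop := ∀ t ∈ T, (Event (tw t m) ↔ t ∈ A)

open Classical in
/-- the `t ∈ T` such that the twist by `t m` has the root number `1` -/
noncomputable def plus (T : Finset ℤ) (m : ℤ) : Finset ℤ := T.filter fun t => Root (tw t m)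

/-- the class of `d₀`: the same class at the given places, and the same root numbers of the twists by `t m`,
`t ∈ T` -/
def Cls (T : Finset ℤ) (inf : Prop) (S : Finset ℕ) (d₀ m : ℤ) : Prop :=
  (∀ t ∈ T, (Root (tw t m) ↔ Root (tw t d₀))) ∧ SameClass inf S d₀ m

/-- the twists `T`, the patterns `A`, the sets of integers `P` and the proportions `κ`: `T = A = {1}`, all the
integers and `c / 2`; or a finite set `T` of squarefree integers, the class of an integer `d₀`, a subset `A` of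
`plus T d₀` and `c ^ #A (1 - c) ^ #(plus T d₀ \ A)` -/
def IsClass (T A : Finset ℤ) (P : ℤ → Prop) (κ : ℝ) : Prop :=
  (T = {1} ∧ A = {1} ∧ (P = fun _ => True) ∧ κ = c / 2) ∨
    ∃ (inf : Prop) (S : Finset ℕ) (d₀ : ℤ), (∀ t ∈ T, Squarefree t) ∧ (∀ p ∈ S, p.Prime) ∧ Squarefree d₀ ∧
      A ⊆ plus T d₀ ∧ P = Cls T inf S d₀ ∧ κ = c ^ A.card * (1 - c) ^ (plus T d₀ \ A).card

/-- the number of the odd prime factors of `m` which are `a` modulo `q` -/
def cls (q : ℕ) (m : ℤ) (a : ℕ) : ℕ := ((m.natAbs.primeFactors.erase 2).filter fun p => p % q = a).card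

/-- the 2-Selmer rank `s` of the equation `(al j m, be j m²)` of `E_m` -/
noncomputable def sel (j : Fin 3) (m : ℤ) : ℝ := s (al j * m) (be j * m ^ 2)

/-- the coefficients, summed over the twists `t ∈ A` -/
noncomputable def tot (A : Finset ℤ) (w : ℤ → Fin 3 → ℝ) (j : Fin 3) : ℝ := ∑ t ∈ A, w t j

/-- the mean of the linear form `w` for the vector `(1/2, 1/2, 1/2)` -/
noncomputable def mean (w : Fin 3 → ℝ) : ℝ := (w 0 + w 1 + w 2) / 2

/-- the covariance of the linear forms `w`, `t` for the matrix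
`[[1/2, 1/4, 1/4], [1/4, 1/2, 1/2], [1/4, 1/2, 1/2]]` -/
noncomputable def cov (w t : Fin 3 → ℝ) : ℝ :=
  (w 0 * t 0 + (w 1 + w 2) * (t 1 + t 2)) / 2 + (w 0 * (t 1 + t 2) + (w 1 + w 2) * t 0) / 4

/-- the distribution function of the standard normal law -/
noncomputable def Phi (y : ℝ) : ℝ := (gaussianReal 0 1).real (Set.Iic y)

section proof

open Pool.Agent.H743 (X17.parts X17.iparts)

lemma r17_eq {m : ℤ} (h : (17 : ℤ) ∣ m) : (Pool.Agent.H743.X17.lam 17 m).val = r17 m := by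
  have e : Pool.Agent.H743.X17.up 17 m = m / 17 := by
    unfold Pool.Agent.H743.X17.up
    rw [if_pos (by exact_mod_cast h)]
    rfl
  unfold Pool.Agent.H743.X17.lam r17
  rw [e]
  split_ifs <;> rfl

lemma exj (j : Fin 3) (m : ℤ) : ex j m = Pool.Agent.H743.X17.eJ j m := by
  have h3 : ∀ j : Fin 3, j = 0 ∨ j = 1 ∨ j = 2 := by decide
  rcases h3 j with rfl | rfl | rfl
  · rfl
  · show (if 0 < m then non m else if (17 : ℤ) ∣ m then non m + r17 m else non m + 1) =
      (if 0 < m then non m else if (17 : ℤ) ∣ m then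
        non m + (Pool.Agent.H743.X17.lam 17 m).val else non m + 1)
    by_cases h : (17 : ℤ) ∣ m
    · rw [r17_eq h]
    · rw [if_neg h, if_neg h]
  · show (if 0 < m then non m + 2 else if (17 : ℤ) ∣ m then non m + r17 m else non m + 1) =
      (if 0 < m then non m + 2 else if (17 : ℤ) ∣ m then
        non m + (Pool.Agent.H743.X17.lam 17 m).val else non m + 1)
    by_cases h : (17 : ℤ) ∣ m
    · rw [r17_eq h]
    · rw [if_neg h, if_neg h]

lemma al_eq (j : Fin 3) (m : ℤ) :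
    Pool.Agent.H743.X17.pA j m + Pool.Agent.H743.X17.pB j m = al j * m := by
  have h3 : ∀ j : Fin 3, j = 0 ∨ j = 1 ∨ j = 2 := by decide
  rcases h3 j with rfl | rfl | rfl
  · show m + -16 * m = -15 * m
    ring
  · show -m + -17 * m = -18 * m
    ring
  · show 16 * m + 17 * m = 33 * m
    ring

lemma be_eq (j : Fin 3) (m : ℤ) :
    Pool.Agent.H743.X17.pA j m * Pool.Agent.H743.X17.pB j m = be j * m ^ 2 := by
  have h3 : ∀ j : Fin 3, j = 0 ∨ j = 1 ∨ j = 2 := by decide
  rcases h3 j with rfl | rfl | rfl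
  · show m * (-16 * m) = -16 * m ^ 2
    ring
  · show -m * (-17 * m) = 17 * m ^ 2
    ring
  · show 16 * m * (17 * m) = 272 * m ^ 2
    ring

lemma log_pow (n : ℕ) : Nat.log 2 (2 ^ n) = n := Nat.log_pow (by norm_num) n

/-- the two kinds of equations -/
lemma core (m : ℤ) (hm : Squarefree m) (hE : ¬ Exc m) (hG : Good m) (j : Fin 3) (a b : ℤ) :
    (EquE j m a b → b ≠ 0 ∧ a ^ 2 - 4 * b ≠ 0 ∧ Finite (E a b).toAffine.Point ∧
      (Sel a b).Finite ∧ (Sel a b).ncard = 2 ^ ex j m ∧ Sel' a b = {1}) ∧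
    (EquI j m a b → b ≠ 0 ∧ a ^ 2 - 4 * b ≠ 0 ∧ Finite (E a b).toAffine.Point ∧
      Sel a b = {1} ∧ (Sel' a b).Finite ∧ (Sel' a b).ncard = 2 ^ ex j m) := by
  rw [exj]
  constructor
  · rintro ⟨l, hl, ha, hb⟩
    refine Pool.Agent.H743.SQ.main1 j hm hE hG hl ?_ ?_
    · rw [ha, al_eq]; push_cast; ring
    · rw [hb, be_eq]; push_cast; ring
  · rintro ⟨l, hl, ha, hb⟩
    refine Pool.Agent.H743.SQ.main2 j hm hE hG hl ?_ ?_
    · rw [ha, al_eq]; push_cast; ring
    · have e : (Pool.Agent.H743.X17.pA j m - Pool.Agent.H743.X17.pB j m) ^ 2 =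
          (Pool.Agent.H743.X17.pA j m + Pool.Agent.H743.X17.pB j m) ^ 2 -
            4 * (Pool.Agent.H743.X17.pA j m * Pool.Agent.H743.X17.pB j m) := by ring
      rw [hb, e, al_eq, be_eq]; push_cast; ring

lemma ex_facts {m : ℤ} (hm : Squarefree m) (hE : ¬ Exc m) (hG : Good m) (j : Fin 3) :
    2 ≤ ex j m ∧ Even (ex j m) := by
  rw [exj]
  exact ⟨Pool.Agent.H743.SQ.two_le j hm hE hG, Pool.Agent.H743.SQ.eJ_even j hm
    ((Pool.Agent.H743.X17.sys_iff Pool.Agent.H743.X17.parts hm).1 hG).1⟩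

lemma full {m : ℤ} (hm : Squarefree m) (hE : ¬ Exc m) (hG : Good m) (j : Fin 3) (a b : ℤ)
    (h : EquE j m a b ∨ EquI j m a b) :
    b ≠ 0 ∧ a ^ 2 - 4 * b ≠ 0 ∧ Finite (E a b).toAffine.Point ∧ r a b = 0 ∧ Q1 a b ∧
      s a b = ex j m - 2 := by
  obtain ⟨c1, c2⟩ := core m hm hE hG j a b
  have hev := (ex_facts hm hE hG j).2
  have key : ∀ f g : ℕ, f + g = ex j m → r a b = 0 → f₁ a b = f → f₂ a b = g →
      Q1 a b ∧ s a b = ex j m - 2 := by
    intro f g hfg h0 h1 h2
    refine ⟨?_, ?_⟩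
    · unfold Q1
      rw [h0, h1, h2, zero_add, hfg]
      exact hev
    · unfold s
      rw [h1, h2, ← hfg]
      push_cast
      ring
  have l1 : Nat.log 2 (({1} : Set ℤ).ncard) = 0 := by
    rw [Set.ncard_singleton]
    simp
  rcases h with h | h
  · obtain ⟨h1, h2, h3, -, h5, h6⟩ := c1 h
    have hr : r a b = 0 := Pool.Agent.H743.SQ.rank0 h3
    obtain ⟨k1, k2⟩ := key (ex j m) 0 (add_zero _) hr (by unfold f₁; rw [h5, log_pow])
      (by unfold f₂; rw [h6, l1])
    exact ⟨h1, h2, h3, hr, k1, k2⟩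
  · obtain ⟨h1, h2, h3, h4, -, h6⟩ := c2 h
    have hr : r a b = 0 := Pool.Agent.H743.SQ.rank0 h3
    obtain ⟨k1, k2⟩ := key 0 (ex j m) (zero_add _) hr (by unfold f₁; rw [h4, l1])
      (by unfold f₂; rw [h6, log_pow])
    exact ⟨h1, h2, h3, hr, k1, k2⟩

open Pool.Agent.H468.WM (opf cnt Wt)
open Pool.Agent.H468.WN
open Pool.Agent.H468.WJ (kp indep_pat clt_pat exc exc_not)
open Pool.Agent.H743.JL (Qc2)

lemma num_congr {P Q : ℤ → Prop} (h : ∀ m, P m ↔ Q m) (X : ℕ) : num P X = num Q X := by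
  have : P = Q := funext fun m => propext (h m)
  rw [this]

lemma all_sys (d : ℤ) (hd : Squarefree d) (h : ¬ Pool.Agent.H743.X17.Exc d) :
    Event d ↔ Pool.Agent.H743.X17.Sys d :=
  ⟨fun h' => h'.1, fun h' => ⟨h', fun j a b hab => full hd h h' j a b hab⟩⟩

lemma num_eq (P : ℤ → Prop) (X : ℕ) : num P X = Pool.Agent.H743.X17.num P X := rfl

lemma c_eq : c = Pool.Agent.Y703.CQ.c2 := rfl

lemma cls_eq (q : ℕ) (m : ℤ) : cls q m = cnt q (opf m) := rfl

lemma tw_eq (t m : ℤ) : tw t m = Pool.Agent.H743.JL.tw t m := rfl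

lemma tw_one (m : ℤ) : tw 1 m = m := Pool.Agent.H955.JL.TT.t_TT.2.2.2.1 m

lemma qc_iff (T : Finset ℤ) (inf : Prop) (S : Finset ℕ) (d₀ m : ℤ) :
    Qc2 T ∅ inf S d₀ m ↔ Cls T inf S d₀ m :=
  ⟨fun h => ⟨h.1.1, h.2⟩, fun h => ⟨⟨h.1, fun t ht => absurd ht (Finset.notMem_empty t)⟩, h.2⟩⟩

lemma qc_eq (T : Finset ℤ) (inf : Prop) (S : Finset ℕ) (d₀ : ℤ) :
    Qc2 T ∅ inf S d₀ = Cls T inf S d₀ := funext fun m => propext (qc_iff T inf S d₀ m)

open Classical in
lemma mem_plus {T : Finset ℤ} {d₀ t : ℤ} : t ∈ plus T d₀ ↔ t ∈ T ∧ Root (tw t d₀) := by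
  unfold plus
  exact Finset.mem_filter

lemma plus_eq (T : Finset ℤ) (d₀ : ℤ) {inst : DecidablePred fun t =>
    Pool.Agent.H743.X17.Rt (Pool.Agent.H743.JL.tw t d₀)} :
    @Finset.filter ℤ (fun t => Pool.Agent.H743.X17.Rt (Pool.Agent.H743.JL.tw t d₀)) inst T =
      plus T d₀ := by
  ext t
  rw [Finset.mem_filter, mem_plus]
  exact Iff.rfl

lemma kp_eq (Tp A : Finset ℤ) : kp Tp A ∅ ∅ = c ^ A.card * (1 - c) ^ (Tp \ A).card := by
  unfold Pool.Agent.H468.WJ.kp
  rw [c_eq]
  simp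

/-- the exceptions -/
noncomputable def Ex : Finset ℤ := Pool.Agent.H743.X17.ES

lemma not_exc {d : ℤ} (h : d ∉ Ex) : ¬ Pool.Agent.H743.X17.Exc d :=
  fun h' => h (Pool.Agent.H743.X17.mem_ES.2 h')

lemma pat_iff {T : Finset ℤ} (hT : ∀ t ∈ T, Squarefree t) (A : Finset ℤ) {d : ℤ} (hd : Squarefree d)
    (h : d ∉ exc T Ex) : Pat T A d ↔ Pool.Agent.H468.WJ.Pat T A ∅ ∅ d := by
  have h1 := exc_not hT hd h
  have h2 : ∀ t ∈ T, (Event (tw t d) ↔ Pool.Agent.H743.X17.Sys (Pool.Agent.H743.JL.tw t d)) :=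
    fun t ht => all_sys _ (Pool.Agent.N855.GF.Tw.tw_sqf (hT t ht) hd) (not_exc (h1 t ht))
  constructor
  · intro h3
    exact ⟨fun t ht => (h2 t ht).symm.trans (h3 t ht), fun t ht => absurd ht (Finset.notMem_empty t)⟩
  · intro h3 t ht
    exact (h2 t ht).trans (h3.1 t ht)

lemma wt_mem {q : ℕ} (V : Set (ℕ → ℕ)) : Wt q fun S => cnt q S ∈ V := by
  intro S S' h
  show cnt q S ∈ V ↔ cnt q S' ∈ V
  rw [h]

lemma indep {T A : Finset ℤ} {P : ℤ → Prop} {κ : ℝ} (hP : IsClass T A P κ) {q : ℕ} (hq : 0 < q)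
    {ε : ℝ} (hε : 0 < ε) : ∃ X₀ : ℕ, ∀ X : ℕ, X₀ ≤ X → ∀ V : Set (ℕ → ℕ),
      |(num (fun m => P m ∧ Pat T A m ∧ cls q m ∈ V) X : ℝ) -
        κ * num (fun m => P m ∧ cls q m ∈ V) X| ≤ ε * X := by
  rcases hP with ⟨rfl, rfl, rfl, rfl⟩ | ⟨inf, S, d₀, h1, h2, h3, h4, rfl, rfl⟩
  · obtain ⟨X₀, h⟩ := indep_all all_sys hq ε hε
    refine ⟨X₀, fun X hX V => ?_⟩
    have h1 := h X hX _ (wt_mem V)
    have e1 : num (fun m => True ∧ Pat {1} {1} m ∧ cls q m ∈ V) X =
        Pool.Agent.H743.X17.num (fun d => Event d ∧ cnt q (opf d) ∈ V) X := by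
      rw [← num_eq]
      refine num_congr (fun m => ?_) X
      constructor
      · rintro ⟨-, a, b⟩
        have a1 := (a 1 (Finset.mem_singleton_self 1)).2 (Finset.mem_singleton_self 1)
        rw [tw_one] at a1
        exact ⟨a1, b⟩
      · rintro ⟨a, b⟩
        refine ⟨trivial, fun t ht => ?_, b⟩
        rw [Finset.mem_singleton.1 ht, tw_one]
        exact ⟨fun _ => Finset.mem_singleton_self 1, fun _ => a⟩
    have e2 : num (fun m => True ∧ cls q m ∈ V) X =
        Pool.Agent.H743.X17.num (fun d => cnt q (opf d) ∈ V) X := by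
      rw [← num_eq]
      exact num_congr (fun m => ⟨fun h => h.2, fun h => ⟨trivial, h⟩⟩) X
    rw [e1, e2, c_eq]
    exact h1
  · obtain ⟨X₀, h⟩ := indep_pat T ∅ inf S d₀ h1 (fun t ht => absurd ht (Finset.notMem_empty t)) h2 h3
      hq (A := A) (A' := ∅) (by rw [plus_eq]; exact h4) (Finset.Subset.refl ∅)
      (F := Pat T A) (exc T Ex) (fun d hd hE _ => pat_iff h1 A hd hE) ε hε
    refine ⟨X₀, fun X hX V => ?_⟩
    have h5 := h X hX _ (wt_mem V)
    rw [plus_eq, kp_eq, qc_eq] at h5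
    exact h5

lemma sel_eq {m : ℤ} (h : Event m) (j : Fin 3) : sel j m = (ex j m : ℝ) - 2 := by
  have hq : EquE j m (al j * m) (be j * m ^ 2) :=
    ⟨1, one_ne_zero, by push_cast; ring, by push_cast; ring⟩
  have h1 := (h.2 j _ _ (Or.inl hq)).2.2.2.2.2
  unfold sel
  rw [h1]
  push_cast
  ring

lemma sel_near {m : ℤ} (hm : m ≠ 0) (hA : Event m) :
    |sel 0 m - n3 (opf m)| ≤ 5 ∧ |sel 1 m - n17 (opf m)| ≤ 4 ∧ |sel 2 m - n17 (opf m)| ≤ 4 := by
  obtain ⟨h1, h2⟩ := na_near hm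
  have h1' : (n3 (opf m) : ℝ) ≤ Pool.Agent.H743.X17.na m := by exact_mod_cast h1
  have h2' : (Pool.Agent.H743.X17.na m : ℝ) ≤ n3 (opf m) + 1 := by exact_mod_cast h2
  have h0 := Pool.Agent.H743.X17.eJ_near 0 m
  have h3 := Pool.Agent.H743.X17.eJ_near 1 m
  have h4 := Pool.Agent.H743.X17.eJ_near 2 m
  rw [if_pos rfl] at h0
  rw [if_neg (by decide), nn_eq hm] at h3
  rw [if_neg (by decide), nn_eq hm] at h4
  rw [sel_eq hA, sel_eq hA, sel_eq hA, exj, exj, exj]
  rw [abs_le] at h0 h3 h4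
  refine ⟨?_, ?_, ?_⟩ <;> rw [abs_le] <;> constructor <;>
    linarith [h0.1, h0.2, h3.1, h3.2, h4.1, h4.2]

lemma abs3 (w x : Fin 3 → ℝ) (a b K : ℝ) (h0 : |x 0 - a| ≤ K) (h1 : |x 1 - b| ≤ K)
    (h2 : |x 2 - b| ≤ K) :
    |∑ j, w j * x j - (w 0 * a + (w 1 + w 2) * b)| ≤ K * (|w 0| + |w 1| + |w 2|) := by
  have e : ∑ j, w j * x j - (w 0 * a + (w 1 + w 2) * b) =
      w 0 * (x 0 - a) + w 1 * (x 1 - b) + w 2 * (x 2 - b) := by
    rw [Fin.sum_univ_three]
    ring
  rw [e]
  refine (abs_add_le _ _).trans ((add_le_add (abs_add_le _ _) le_rfl).trans ?_)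
  rw [abs_mul, abs_mul, abs_mul]
  have k0 : |w 0| * |x 0 - a| ≤ |w 0| * K := mul_le_mul_of_nonneg_left h0 (abs_nonneg _)
  have k1 : |w 1| * |x 1 - b| ≤ |w 1| * K := mul_le_mul_of_nonneg_left h1 (abs_nonneg _)
  have k2 : |w 2| * |x 2 - b| ≤ |w 2| * K := mul_le_mul_of_nonneg_left h2 (abs_nonneg _)
  linarith

/-- the bound for the linear form -/
noncomputable def bd (A : Finset ℤ) (w : ℤ → Fin 3 → ℝ) : ℝ :=
  ∑ t ∈ A, (5 + (t.natAbs.primeFactors.card : ℝ)) * (|w t 0| + |w t 1| + |w t 2|)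

lemma near {k : ℕ} {A : Finset ℤ} (hA : ∀ t ∈ A, Squarefree t) (w : Fin k → ℤ → Fin 3 → ℝ) {d : ℤ}
    (hd : Squarefree d) (hAll : ∀ t ∈ A, Event (tw t d)) (i : Fin k) :
    |∑ t ∈ A, ∑ j, w i t j * sel j (tw t d) -
      gw 68 (wc (fun i => tot A (w i) 0) (fun i => tot A (w i) 1 + tot A (w i) 2)) i (opf d)| ≤
      bd A (w i) := by
  rw [gw_eq]
  have e : ∑ t ∈ A, ∑ j, w i t j * sel j (tw t d) -
      (tot A (w i) 0 * (n3 (opf d) : ℝ) + (tot A (w i) 1 + tot A (w i) 2) * (n17 (opf d) : ℝ)) =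
      ∑ t ∈ A, (∑ j, w i t j * sel j (tw t d) -
        (w i t 0 * (n3 (opf d) : ℝ) + (w i t 1 + w i t 2) * (n17 (opf d) : ℝ))) := by
    unfold tot
    rw [Finset.sum_sub_distrib, Finset.sum_add_distrib, ← Finset.sum_mul, ← Finset.sum_mul,
      Finset.sum_add_distrib]
  rw [e]
  refine (Finset.abs_sum_le_sum_abs _ _).trans (Finset.sum_le_sum fun t ht => ?_)
  have hsq : Squarefree (tw t d) := Pool.Agent.N855.GF.Tw.tw_sqf (hA t ht) hd
  obtain ⟨h0, h1, h2⟩ := sel_near hsq.ne_zero (hAll t ht)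
  have c3 := Pool.Agent.H468.WJ.n3_tw (hA t ht) hd
  have cn := Pool.Agent.H468.WJ.n17_tw (hA t ht) hd
  rw [← tw_eq] at c3 cn
  refine abs3 (w i t) (fun j => sel j (tw t d)) _ _ _ ?_ ?_ ?_
  · have h : |sel 0 (tw t d) - n3 (opf (tw t d))| ≤ 5 := h0
    rw [abs_le] at h c3 ⊢
    constructor <;> linarith [h.1, h.2, c3.1, c3.2]
  · have h : |sel 1 (tw t d) - n17 (opf (tw t d))| ≤ 4 := h1
    rw [abs_le] at h cn ⊢
    constructor <;> linarith [h.1, h.2, cn.1, cn.2]
  · have h : |sel 2 (tw t d) - n17 (opf (tw t d))| ≤ 4 := h2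
    rw [abs_le] at h cn ⊢
    constructor <;> linarith [h.1, h.2, cn.1, cn.2]

lemma law {T A : Finset ℤ} {P : ℤ → Prop} {κ : ℝ} (hP : IsClass T A P κ) {k : ℕ}
    (w : Fin k → ℤ → Fin 3 → ℝ) (y : Fin k → ℝ) (hpos : ∀ i, 0 < cov (tot A (w i)) (tot A (w i)))
    (ho : ∀ i j, i ≠ j → cov (tot A (w i)) (tot A (w j)) = 0) :
    Tendsto (fun X : ℕ => (num (fun m => P m ∧ Pat T A m ∧
      ∀ i, ∑ t ∈ A, ∑ j, w i t j * sel j (tw t m) ≤ mean (tot A (w i)) * Real.log (Real.log X) +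
        y i * √(cov (tot A (w i)) (tot A (w i)) * Real.log (Real.log X))) X : ℝ) /
      (num P X : ℝ)) atTop (𝓝 (κ * ∏ i, Phi (y i))) := by
  obtain ⟨K, hK⟩ : ∃ K : ℝ, K = ∑ i, bd A (w i) + 1 := ⟨_, rfl⟩
  have hb0 : ∀ i, 0 ≤ bd A (w i) := fun i => Finset.sum_nonneg fun t _ => by positivity
  have hK0 : 0 < K := by
    rw [hK]
    have : 0 ≤ ∑ i, bd A (w i) := Finset.sum_nonneg fun i _ => hb0 i
    linarith
  have hKi : ∀ i, bd A (w i) ≤ K := by
    intro i
    have := Finset.single_le_sum (f := fun i => bd A (w i)) (fun i _ => hb0 i) (Finset.mem_univ i)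
    rw [hK]
    linarith
  obtain ⟨α, hα⟩ : ∃ α : Fin k → ℝ, α = fun i => tot A (w i) 0 := ⟨_, rfl⟩
  obtain ⟨β, hβ⟩ : ∃ β : Fin k → ℝ, β = fun i => tot A (w i) 1 + tot A (w i) 2 := ⟨_, rfl⟩
  have hv : Pool.Agent.H468.WV.Vec (fw 68 (wc α β)) (fun i => (α i + β i) / 2)
      (fun i => Pool.Agent.H468.WN.VV α β i i) := by
    refine vec_c α β (fun i => ?_) fun i j h => ?_
    · rw [hα, hβ]
      exact hpos i
    · rw [hα, hβ]
      exact ho i j h
  have hg : ∀ (i : Fin k) (n : ℕ), fw 68 (wc α β) i n = gw 68 (wc α β) i n.primeFactors :=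
    fun i n => rfl
  have hg' : ∀ (i : Fin k) (S S' : Finset ℕ), cnt 136 S = cnt 136 S' →
      gw 68 (wc α β) i S = gw 68 (wc α β) i S' := fun i S S' h =>
    gw_cnt (by norm_num) _ i S S' (cnt_dvd (by norm_num) (by norm_num) h)
  have hnear : (∀ t ∈ A, Squarefree t) → ∀ (d : ℤ), Squarefree d → (∀ t ∈ A, Event (tw t d)) → ∀ i,
      |∑ t ∈ A, ∑ j, w i t j * sel j (tw t d) - gw 68 (wc α β) i (opf d)| ≤ K := by
    intro hA d hd hAll i
    rw [hα, hβ]
    exact (near hA w hd hAll i).trans (hKi i)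
  have hT : ∀ (X : ℕ) (i : Fin k), th (fun i => (α i + β i) / 2)
      (fun i => Pool.Agent.H468.WN.VV α β i i) y X i =
      mean (tot A (w i)) * Real.log (Real.log X) +
        y i * √(cov (tot A (w i)) (tot A (w i)) * Real.log (Real.log X)) := by
    intro X i
    have e : √(cov (tot A (w i)) (tot A (w i)) * Real.log (Real.log X)) =
        √(cov (tot A (w i)) (tot A (w i))) * √(Real.log (Real.log X)) := Real.sqrt_mul (hpos i).le _
    rw [e, hα, hβ]
    unfold th mean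
    rw [add_assoc (tot A (w i) 0)]
    rfl
  rcases hP with ⟨rfl, rfl, rfl, rfl⟩ | ⟨inf, S, d₀, g1, g2, g3, g4, rfl, rfl⟩
  · have hA1 : ∀ t ∈ ({1} : Finset ℤ), Squarefree t := fun t ht => by
      rw [Finset.mem_singleton.1 ht]
      exact squarefree_one
    have hAll : ∀ {d : ℤ}, Event d → ∀ t ∈ ({1} : Finset ℤ), Event (tw t d) := fun {d} h t ht => by
      rw [Finset.mem_singleton.1 ht, tw_one]
      exact h
    refine (clt_all hv hg hg' hK0 (F := fun Th d => Event d ∧ ∀ i,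
      ∑ t ∈ ({1} : Finset ℤ), ∑ j, w i t j * sel j (tw t d) ≤ Th i) ?_ ?_ y).congr fun X => ?_
    · intro Th d hd hE hS h
      have hA := (all_sys d hd hE).2 hS
      refine ⟨hA, fun i => ?_⟩
      have h3 := (abs_le.1 (hnear hA1 d hd (hAll hA) i)).2
      have h4 := h i
      linarith
    · rintro Th d hd hE ⟨hA, h⟩
      refine ⟨(all_sys d hd hE).1 hA, fun i => ?_⟩
      have h3 := (abs_le.1 (hnear hA1 d hd (hAll hA) i)).1
      have h4 := h i
      show _ ≤ Th i + K
      linarith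
    · have e : num (fun m => True ∧ Pat {1} {1} m ∧ ∀ i,
          ∑ t ∈ ({1} : Finset ℤ), ∑ j, w i t j * sel j (tw t m) ≤
          mean (tot {1} (w i)) * Real.log (Real.log X) +
            y i * √(cov (tot {1} (w i)) (tot {1} (w i)) * Real.log (Real.log X))) X =
          num (fun m => Event m ∧ ∀ i, ∑ t ∈ ({1} : Finset ℤ), ∑ j, w i t j * sel j (tw t m) ≤
            th (fun i => (α i + β i) / 2) (fun i => Pool.Agent.H468.WN.VV α β i i) y X i) X := by
        refine num_congr (fun m => ?_) X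
        simp only [hT]
        constructor
        · rintro ⟨-, a, b⟩
          have a1 := (a 1 (Finset.mem_singleton_self 1)).2 (Finset.mem_singleton_self 1)
          rw [tw_one] at a1
          exact ⟨a1, b⟩
        · rintro ⟨a, b⟩
          refine ⟨trivial, fun t ht => ?_, b⟩
          exact ⟨fun _ => ht, fun _ => hAll a t ht⟩
      rw [e]
      rfl
  · have hAp : ∀ t ∈ A, t ∈ T := fun t ht => (mem_plus.1 (g4 ht)).1
    have hA1 : ∀ t ∈ A, Squarefree t := fun t ht => g1 t (hAp t ht)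
    have hmain := clt_pat hv hg hg' hK0 T ∅ inf S d₀ g1
      (fun t ht => absurd ht (Finset.notMem_empty t)) g2 g3 (A := A) (A' := ∅)
      (by rw [plus_eq]; exact g4) (Finset.Subset.refl ∅) (exc T Ex)
      (F := fun Th d => Pat T A d ∧ ∀ i, ∑ t ∈ A, ∑ j, w i t j * sel j (tw t d) ≤ Th i) ?_ ?_ y
    · rw [plus_eq, kp_eq, qc_eq] at hmain
      refine hmain.congr fun X => ?_
      have e : num (fun m => Cls T inf S d₀ m ∧ Pat T A m ∧ ∀ i,
          ∑ t ∈ A, ∑ j, w i t j * sel j (tw t m) ≤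
          mean (tot A (w i)) * Real.log (Real.log X) +
            y i * √(cov (tot A (w i)) (tot A (w i)) * Real.log (Real.log X))) X =
          num (fun m => Cls T inf S d₀ m ∧ Pat T A m ∧ ∀ i,
            ∑ t ∈ A, ∑ j, w i t j * sel j (tw t m) ≤
            th (fun i => (α i + β i) / 2) (fun i => Pool.Agent.H468.WN.VV α β i i) y X i) X := by
        refine num_congr (fun m => ?_) X
        simp only [hT]
      rw [e]
      rfl
    · intro Th d hd hE _ hp h
      have hpat := (pat_iff g1 A hd hE).2 hp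
      refine ⟨hpat, fun i => ?_⟩
      have h3 := (abs_le.1 (hnear hA1 d hd (fun t ht => (hpat t (hAp t ht)).2 ht) i)).2
      have h4 := h i
      linarith
    · rintro Th d hd hE _ ⟨hpat, h⟩
      refine ⟨(pat_iff g1 A hd hE).1 hpat, fun i => ?_⟩
      have h3 := (abs_le.1 (hnear hA1 d hd (fun t ht => (hpat t (hAp t ht)).2 ht) i)).1
      have h4 := h i
      show _ ≤ Th i + K
      linarith

/-- the classes have positive lower density -/
lemma low {T A : Finset ℤ} {P : ℤ → Prop} {κ : ℝ} (hP : IsClass T A P κ) :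
    ∃ (δ : ℝ) (X₀ : ℕ), 0 < δ ∧ ∀ X : ℕ, X₀ ≤ X → δ * X ≤ (num P X : ℝ) := by
  rcases hP with ⟨rfl, rfl, rfl, rfl⟩ | ⟨inf, S, d₀, g1, g2, g3, g4, rfl, rfl⟩
  · obtain ⟨δ, X₀, h1, h2⟩ := low_loc False ∅ (fun p hp => absurd hp (Finset.notMem_empty p))
      squarefree_one (Or.inl ⟨one_pos, jacobiSym.one_left 17⟩)
    refine ⟨δ, X₀, h1, fun X hX => (h2 X hX).trans ?_⟩
    have h3 := Pool.Agent.H743.X17.num_mono (P := fun d => Pool.Agent.H743.X17.Rt d ∧
      Pool.Agent.N855.GF.Lc17.Loc False ∅ 1 d) (Q := fun _ => True) (fun d _ _ => trivial) X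
    have h4 : num (fun _ => True) X = Pool.Agent.H743.X17.num (fun _ => True) X := rfl
    rw [h4]
    exact_mod_cast h3
  · obtain ⟨m, -, -, -, h, -⟩ := Pool.Agent.H468.WJ.mod2 T ∅ inf S d₀ g1
      (fun t ht => absurd ht (Finset.notMem_empty t)) g2 g3
    obtain ⟨δ, X₀, h1, h2⟩ := h
    rw [qc_eq] at h2
    exact ⟨δ, X₀, h1, h2⟩

end proof

/-- **Rank and 2-isogeny Selmer rank in the twist class of conductor `17`.** -/
theorem result :
    -- (1) every equation of the four curves, every twist with `Good m`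
    (∀ m : ℤ, Squarefree m → ¬ Exc m → Good m → ∀ (j : Fin 3) (a b : ℤ),
      (EquE j m a b → (Sel a b).Finite ∧ (Sel a b).ncard = 2 ^ ex j m ∧ Sel' a b = {1}) ∧
      (EquI j m a b → Sel a b = {1} ∧ (Sel' a b).Finite ∧ (Sel' a b).ncard = 2 ^ ex j m) ∧
      (EquE j m a b ∨ EquI j m a b → b ≠ 0 ∧ a ^ 2 - 4 * b ≠ 0 ∧
        Finite (E a b).toAffine.Point ∧ r a b = 0 ∧ Q1 a b ∧ s a b = ex j m - 2) ∧
      2 ≤ ex j m ∧ Even (ex j m)) ∧
    (∀ (T A : Finset ℤ) (P : ℤ → Prop) (κ : ℝ), IsClass T A P κ →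
    (∃ (δ : ℝ) (X₀ : ℕ), 0 < δ ∧ ∀ X : ℕ, X₀ ≤ X → δ * X ≤ (num P X : ℝ)) ∧
    -- (2) the joint law; independence of the numbers of the prime factors in the residue classes
    (∀ q : ℕ, 0 < q → ∀ ε : ℝ, 0 < ε → ∃ X₀ : ℕ, ∀ X : ℕ, X₀ ≤ X → ∀ V : Set (ℕ → ℕ),
      |(num (fun m => P m ∧ Pat T A m ∧ cls q m ∈ V) X : ℝ) -
        κ * num (fun m => P m ∧ cls q m ∈ V) X| ≤ ε * X) ∧
    -- (3) the joint normal law of the 2-Selmer ranks
    (∀ (k : ℕ) (w : Fin k → ℤ → Fin 3 → ℝ) (y : Fin k → ℝ),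
      (∀ i, 0 < cov (tot A (w i)) (tot A (w i))) →
      (∀ i j, i ≠ j → cov (tot A (w i)) (tot A (w j)) = 0) →
      Tendsto (fun X : ℕ => (num (fun m => P m ∧ Pat T A m ∧
        ∀ i, ∑ t ∈ A, ∑ j, w i t j * sel j (tw t m) ≤ mean (tot A (w i)) * Real.log (Real.log X) +
          y i * √(cov (tot A (w i)) (tot A (w i)) * Real.log (Real.log X))) X : ℝ) /
        (num P X : ℝ)) atTop (𝓝 (κ * ∏ i, Phi (y i))))) ∧
    0.4194 < c ∧ c < 0.4195 := by
  refine ⟨fun m hm hE hG j a b => ?_, fun T A P κ hP => ?_, Pool.Agent.H743.X17.c2_bounds⟩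
  · obtain ⟨c1, c2⟩ := core m hm hE hG j a b
    exact ⟨fun h => (c1 h).2.2.2, fun h => (c2 h).2.2.2, full hm hE hG j a b,
      (ex_facts hm hE hG j).1, (ex_facts hm hE hG j).2⟩
  · exact ⟨low hP, fun q hq ε hε => indep hP hq hε, fun k w y h1 h2 => law hP w y h1 h2⟩

end Pool.Agent.Results.MP_e2b281_nt.TwistsOf17
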